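import Pool.Agent.H.MP_54f1ce_nt.B

set_option autoImplicit false

namespace Pool.Agent.Results.MP_54f1ce_nt.Yes

/-- The value `c₁ + 1/(c₂ + 1/(⋯ + 1/c_λ))` of the finite simple continued fraction with partial
quotients `[c₁, …, c_λ]` (only nonempty lists are used). -/
def cfVal : List ℕ → ℚ
  | [] => 0
  | [c] => c
  | c :: d :: t => c + 1 / cfVal (d :: t)

/-- `c = [c₁, …, c_λ]` is the simple continued fraction expansion of `x`: positive integer partial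
quotients, last one `> 1`, value `x`.  Its length is `λ = c.length`. -/
def IsCF (x : ℚ) (c : List ℕ) : Prop :=
  ∃ h : c ≠ [], (∀ a ∈ c, 0 < a) ∧ 1 < c.getLast h ∧ cfVal c = x

/-- `M_p = {0 < n < p : (n/p) = (-1)^λ(n)}`. -/
def M (p : ℕ) : Set ℕ :=
  {n | 0 < n ∧ n < p ∧ ∃ c, IsCF ((p : ℚ) / n) c ∧ jacobiSym n p = (-1) ^ c.length}

/-- `M̄_p = {0 < n < p : (n/p) = (-1)^(λ(n)+1)}`. -/
def Mbar (p : ℕ) : Set ℕ :=
  {n | 0 < n ∧ n < p ∧ ∃ c, IsCF ((p : ℚ) / n) c ∧ jacobiSym n p = (-1) ^ (c.length + 1)}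

theorem cfVal_eq : ∀ c, cfVal c = Pool.Agent.H.MP_54f1ce_nt.cfVal c
  | [] => rfl
  | [_] => rfl
  | c :: d :: t => by rw [cfVal, Pool.Agent.H.MP_54f1ce_nt.cfVal, cfVal_eq (d :: t)]

theorem IsCF_eq : IsCF = Pool.Agent.H.MP_54f1ce_nt.IsCF := by
  funext x c
  simp only [IsCF, Pool.Agent.H.MP_54f1ce_nt.IsCF, cfVal_eq]

theorem result (p : ℕ) (h3 : 3 < p) (h4 : p % 4 = 3) :
    (M p).ncard ≤ (Mbar p).ncard ∧ 2 ≤ (M p).ncard := by
  have h0 := Pool.Agent.H.MP_54f1ce_nt.card_eq h3 h4 0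
  have h1 := Pool.Agent.H.MP_54f1ce_nt.card_eq h3 h4 1
  simp only [add_zero, zero_add, pow_one] at h0
  rw [show ((-1 : ℤ)) ^ (1 + 1) = 1 by norm_num] at h1
  unfold M Mbar
  rw [IsCF_eq, h0, h1]
  exact ⟨Pool.Agent.H.MP_54f1ce_nt.card_le h4, Pool.Agent.H.MP_54f1ce_nt.two_le h3 h4⟩

end Pool.Agent.Results.MP_54f1ce_nt.Yes
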